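import Pool.Agent.W307.LS.Stm

/-!
Project LS, parts COC, ADD, LT1.
-/

set_option autoImplicit false

namespace Pool.Agent.W153.LS

open Finset WeierstrassCurve Pool.Agent.W262.SH Pool.Agent.W307.LS Filter

open scoped Classical

theorem T0_cases (a b : ℤ) (L : Type) [Field L] [Algebra ℚ L] :
    T0 a b L = 0 ∨ ∃ h, T0 a b L = Affine.Point.some 0 0 h := by
  unfold T0
  split_ifs with h
  · exact Or.inr ⟨h, rfl⟩
  · exact Or.inl rfl

theorem T0_add (a b : ℤ) (L : Type) [Field L] [Algebra ℚ L] :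
    T0 a b L + T0 a b L = 0 := by
  rcases T0_cases a b L with h | ⟨h, e⟩
  · rw [h, add_zero]
  · rw [e]
    apply Affine.Point.add_self_of_Y_eq
    simp [Affine.negY, F4, WeierstrassCurve.baseChange, WeierstrassCurve.map]

theorem some_congr {F : Type} [Field F] {W' : WeierstrassCurve F} {x y x' y' : F}
    (hx : x = x') (hy : y = y') (h : W'.toAffine.Nonsingular x y)
    (h' : W'.toAffine.Nonsingular x' y') :
    (Affine.Point.some x y h : W'.toAffine.Point) = Affine.Point.some x' y' h' := by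
  subst hx
  subst hy
  rfl

theorem act_T0 (a b : ℤ) (σ : QB →ₐ[ℚ] QB) : act (F4 a b) σ (T0 a b QB) = T0 a b QB := by
  rcases T0_cases a b QB with h | ⟨h, e⟩
  · rw [h, map_zero]
  · rw [e]
    have h1 := WeierstrassCurve.Affine.Point.map_some (W' := F4 a b) σ h
    refine Eq.trans h1 ?_
    exact some_congr (map_zero σ) (map_zero σ) _ _

theorem sgn (d : ℤ) (s : QB) (hs : s ^ 2 = (d : QB)) (σ : QB ≃ₐ[ℚ] QB) :
    σ s = s ∨ σ s = -s := by
  apply sq_eq_sq_iff_eq_or_eq_neg.1
  rw [← map_pow, hs, map_intCast]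

theorem ne_neg {s : QB} (hs : s ≠ 0) : -s ≠ s := by
  intro h
  apply hs
  have h2 : (2 : QB) * s = 0 := by linear_combination -h
  rcases mul_eq_zero.1 h2 with h3 | h3
  · exact absurd h3 two_ne_zero
  · exact h3

theorem ne_zero {d : ℤ} {s : QB} (hs : s ^ 2 = (d : QB)) (hd : d ≠ 0) : s ≠ 0 := by
  rintro rfl
  apply hd
  have : (d : QB) = 0 := by rw [← hs]; simp
  exact_mod_cast this

theorem cs_pos {a b : ℤ} {s : QB} {σ : QB ≃ₐ[ℚ] QB} (h : σ s = s) : cs a b s σ = 0 := by
  unfold cs; rw [if_pos h]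

theorem cs_neg {a b : ℤ} {s : QB} {σ : QB ≃ₐ[ℚ] QB} (h0 : s ≠ 0) (h : σ s = -s) :
    cs a b s σ = T0 a b QB := by
  unfold cs
  rw [if_neg]
  rw [h]
  exact ne_neg h0

theorem algQB : Algebra.IsAlgebraic ℚ QB := AlgebraicClosure.isAlgebraic ℚ

theorem coc : COC := by
  intro a b d s hs hd
  have h0 := ne_zero hs hd
  refine ⟨?_, ?_⟩
  · rw [IsLocallyConstant.iff_exists_open]
    intro σ
    let K0 := IntermediateField.adjoin ℚ ({s} : Set QB)
    have : FiniteDimensional ℚ K0 := by
      refine IntermediateField.finiteDimensional_adjoin fun z _ => ?_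
      have := algQB
      exact (Algebra.IsAlgebraic.isAlgebraic (R := ℚ) z).isIntegral
    have ho : IsOpen (K0.fixingSubgroup : Set (QB ≃ₐ[ℚ] QB)) :=
      IntermediateField.fixingSubgroup_isOpen K0
    refine ⟨(fun τ => σ⁻¹ * τ) ⁻¹' (K0.fixingSubgroup : Set (QB ≃ₐ[ℚ] QB)),
      ho.preimage (continuous_const.mul continuous_id), ?_, fun τ hτ => ?_⟩
    · show σ⁻¹ * σ ∈ K0.fixingSubgroup
      rw [inv_mul_cancel]
      exact one_mem _
    · have h1 : s ∈ K0 := IntermediateField.subset_adjoin ℚ _ (by simp)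
      have h2 := (IntermediateField.mem_fixingSubgroup_iff K0 _).1 hτ s h1
      have h3 : σ ((σ⁻¹ * τ) s) = σ s := congrArg σ h2
      have h4 : τ s = σ s := by
        rw [← h3]
        show τ s = σ (σ⁻¹ (τ s))
        exact (σ.apply_symm_apply (τ s)).symm
      unfold cs
      rw [h4]
  · intro σ τ
    have hm : (σ * τ) s = σ (τ s) := rfl
    rcases sgn d s hs τ with ht | ht
    · rw [cs_pos ht, map_zero, add_zero]
      rcases sgn d s hs σ with h | h
      · rw [cs_pos h, cs_pos]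
        rw [hm, ht, h]
      · rw [cs_neg h0 h, cs_neg h0]
        rw [hm, ht, h]
    · rw [cs_neg h0 ht, act_T0]
      rcases sgn d s hs σ with h | h
      · rw [cs_pos h, zero_add, cs_neg h0]
        rw [hm, ht, map_neg, h]
      · rw [cs_neg h0 h, T0_add, cs_pos]
        rw [hm, ht, map_neg, h, neg_neg]

theorem add : ADD := by
  intro a b d e s t hs ht hd he
  have h0 := ne_zero hs hd
  have h1 := ne_zero ht he
  have h01 : s * t ≠ 0 := mul_ne_zero h0 h1
  funext σ
  rw [Pi.add_apply]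
  have hm : σ (s * t) = σ s * σ t := map_mul σ s t
  rcases sgn d s hs σ with h | h <;> rcases sgn e t ht σ with h' | h'
  · rw [cs_pos h, cs_pos h', cs_pos, add_zero]
    rw [hm, h, h']
  · rw [cs_pos h, cs_neg h1 h', cs_neg h01, zero_add]
    rw [hm, h, h']; ring
  · rw [cs_neg h0 h, cs_pos h', cs_neg h01, add_zero]
    rw [hm, h, h']; ring
  · rw [cs_neg h0 h, cs_neg h1 h', cs_pos, T0_add]
    rw [hm, h, h']; ring

theorem lt1 : LT1 := by
  intro a b K _ _ d s k hs hk ι
  refine ⟨0, fun τ σ hcomp => ?_⟩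
  have h1 : σ s = s := by
    have e1 : ι (σ s) = τ (ι s) := by
      have := congrArg (fun g : QB →ₐ[ℚ] AlgebraicClosure K => g s) hcomp
      exact this.symm
    have e2 : (ι s) ^ 2 = (algebraMap K (AlgebraicClosure K) k) ^ 2 := by
      rw [← map_pow, hs, ← map_pow, hk, map_intCast, map_intCast]
    have e3 : τ (ι s) = ι s := by
      rcases sq_eq_sq_iff_eq_or_eq_neg.1 e2 with h | h
      · rw [h, τ.commutes]
      · rw [h, map_neg, τ.commutes]
    have e4 : ι (σ s) = ι s := by rw [e1, e3]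
    exact ι.injective e4
  rw [cs_pos h1, map_zero, map_zero, sub_zero]

end Pool.Agent.W153.LS
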